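import Mathlib

set_option autoImplicit false

namespace Pool.Agent.Results.MP_4d07cf_an.No

open Set Filter Topology MvPolynomial

/-- nowhere Hoelder functions -/
def NH (g : ℝ → ℝ) : Prop :=
  ∀ x, ∀ α > (0 : ℝ), ∀ C : ℝ, ∃ᶠ y in 𝓝[≠] x, C < |g y - g x| / |y - x| ^ α

/-- `n` times differentiable with nowhere Hoelder `n`-th derivative -/
def A (n : ℕ) : Set (ℝ → ℝ) :=
  {f | (∀ k < n, Differentiable ℝ (deriv^[k] f)) ∧ NH (deriv^[n] f)}

/-- recursive form -/
def D : ℕ → (ℝ → ℝ) → Prop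
  | 0, _ => True
  | n + 1, f => Differentiable ℝ f ∧ D n (deriv f)

theorem D_of {n : ℕ} {f : ℝ → ℝ} (h : ∀ k < n, Differentiable ℝ (deriv^[k] f)) : D n f := by
  induction n generalizing f with
  | zero => trivial
  | succ n ih => exact ⟨h 0 n.succ_pos, ih fun k hk => h (k + 1) (by omega)⟩

theorem D.mono {n : ℕ} {f : ℝ → ℝ} (h : D (n + 1) f) : D n f := by
  induction n generalizing f with
  | zero => trivial
  | succ n ih => exact ⟨h.1, ih h.2⟩

theorem D.top {n : ℕ} {f : ℝ → ℝ} (h : D (n + 1) f) : Differentiable ℝ (deriv^[n] f) := by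
  induction n generalizing f with
  | zero => exact h.1
  | succ n ih => exact ih h.2

theorem D.add {n : ℕ} {f g : ℝ → ℝ} (h : D n f) (k : D n g) :
    D n (f + g) ∧ deriv^[n] (f + g) = deriv^[n] f + deriv^[n] g := by
  induction n generalizing f g with
  | zero => exact ⟨trivial, rfl⟩
  | succ n ih =>
    have : deriv (f + g) = deriv f + deriv g := funext fun x => deriv_add (h.1 x) (k.1 x)
    exact ⟨⟨h.1.add k.1, this ▸ (ih h.2 k.2).1⟩, by
      simp only [Function.iterate_succ_apply, this, (ih h.2 k.2).2]⟩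

theorem dmul {f g : ℝ → ℝ} (h : Differentiable ℝ f) (k : Differentiable ℝ g) :
    deriv (f * g) = deriv f * g + f * deriv g := funext fun x => deriv_mul (h x) (k x)

theorem D.mul {n : ℕ} {f g : ℝ → ℝ} (h : D n f) (k : D n g) : D n (f * g) := by
  induction n generalizing f g with
  | zero => trivial
  | succ n ih => exact ⟨h.1.mul k.1, dmul h.1 k.1 ▸ ((ih h.2 k.mono).add (ih h.mono k.2)).1⟩

theorem leib {n : ℕ} {f g : ℝ → ℝ} (h : D (n + 1) f) (k : D (n + 1) g) : ∃ w, Differentiable ℝ w ∧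
    deriv^[n + 1] (f * g) = deriv^[n + 1] f * g + f * deriv^[n + 1] g + w := by
  induction n generalizing f g with
  | zero => exact ⟨0, differentiable_zero, by simp [dmul h.1 k.1]⟩
  | succ n ih =>
    obtain ⟨u, u1, u2⟩ := ih h.2 k.mono
    obtain ⟨v, v1, v2⟩ := ih h.mono k.2
    refine ⟨deriv f * deriv^[n + 1] g + u + (deriv^[n + 1] f * deriv g + v),
      ((h.2.1.mul k.top).add u1).add ((h.top.mul k.2.1).add v1), ?_⟩
    rw [Function.iterate_succ_apply, dmul h.1 k.1, ((h.2.mul k.mono).add (h.mono.mul k.2)).2, u2, v2]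
    simp only [← Function.iterate_succ_apply]
    ring

theorem baire {h : ℝ → ℝ} (hd : Differentiable ℝ h) :
    ∃ (x K : ℝ), ∀ᶠ y in 𝓝 x, |deriv h y| ≤ K := by
  let q : ℕ → ℝ → ℝ := fun m x => (1 / (m + 1 : ℝ))⁻¹ • (h (x + 1 / (m + 1 : ℝ)) - h x)
  have t : ∀ x, Tendsto (fun m => |q m x|) atTop (𝓝 |deriv h x|) := fun x =>
    ((hd x).hasDerivAt.tendsto_slope_zero_right.comp (tendsto_nhdsWithin_iff.2
      ⟨tendsto_one_div_add_atTop_nhds_zero_nat, .of_forall fun m => mem_Ioi.2 Nat.one_div_pos_of_nat⟩)).abs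
  obtain ⟨K, x, hx⟩ := nonempty_interior_of_iUnion_of_closed (f := fun K : ℕ => ⋂ m, {x | |q m x| ≤ K})
    (fun K => isClosed_iInter fun m => isClosed_le (by have := hd.continuous; fun_prop)
      continuous_const) (eq_univ_of_forall fun x => by
      obtain ⟨b, hb⟩ := (t x).bddAbove_range
      obtain ⟨K, hK⟩ := exists_nat_ge b
      exact mem_iUnion.2 ⟨K, mem_iInter.2 fun m => (hb ⟨m, rfl⟩).trans hK⟩)
  refine ⟨x, K, ?_⟩
  filter_upwards [mem_interior_iff_mem_nhds.1 hx] with y hy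
  exact le_of_tendsto' (t y) fun m => mem_iInter.1 hy m

theorem key {n : ℕ} {f : ℝ → ℝ} (h : D (n + 1) f) :
    ∃ c : ℝ, ¬ NH (deriv^[n + 1] (f * (f + fun _ => c))) := by
  obtain ⟨x, K, hK⟩ := baire h.top
  rw [← Function.iterate_succ_apply' deriv] at hK
  have dc : ∀ (n : ℕ) (c : ℝ), D (n + 1) (fun _ => c) ∧ deriv^[n + 1] (fun _ : ℝ => c) = 0 := by
    intro n
    induction n with
    | zero => exact fun c => ⟨⟨differentiable_const c, trivial⟩, by ext; simp⟩
    | succ n ih => exact fun c => ⟨⟨differentiable_const c, by simpa using (ih 0).1⟩, by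
        rw [Function.iterate_succ_apply]; simpa using (ih 0).2⟩
  obtain ⟨a, b⟩ := h.add (dc n (-2 * f x)).1
  obtain ⟨w, w1, w2⟩ := leib h a
  refine ⟨-2 * f x, fun c => ?_⟩
  rw [w2, b, (dc n _).2, add_zero] at c
  obtain ⟨C, hC⟩ := (h.1 x).isBigO_sub.bound
  obtain ⟨E, hE⟩ := (w1 x).isBigO_sub.bound
  refine c x 1 one_pos (2 * K * C + E) ?_
  filter_upwards [nhdsWithin_le_nhds hK, nhdsWithin_le_nhds hC, nhdsWithin_le_nhds hE,
    self_mem_nhdsWithin] with y h1 h2 h3 h4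
  rw [not_lt, Real.rpow_one, div_le_iff₀ (abs_pos.2 (sub_ne_zero.2 h4))]
  simp only [Pi.add_apply, Pi.mul_apply, Real.norm_eq_abs] at *
  calc _ = |2 * deriv^[n + 1] f y * (f y - f x) + (w y - w x)| := by congr 1; ring
    _ ≤ 2 * K * (C * |y - x|) + E * |y - x| := by
      refine (abs_add_le _ _).trans (add_le_add ?_ h3)
      rw [abs_mul, abs_mul, abs_two]
      have := (abs_nonneg _).trans h1
      gcongr
    _ = _ := by ring

theorem result : ∀ n, 1 ≤ n → ∀ S : Set (ℝ → ℝ), S.Nonempty →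
    ¬ ∀ (k : ℕ) (P : MvPolynomial (Fin k) ℝ) (y : Fin k → ℝ → ℝ), 1 ≤ k → P ≠ 0 →
      constantCoeff P = 0 → y.Injective → (∀ i, y i ∈ S) → aeval y P ≠ 0 ∧ aeval y P ∈ A n := by
  rintro (_ | n) hn S ⟨f, hf⟩ H
  · omega
  have inj : (fun _ : Fin 1 => f).Injective := Function.injective_of_subsingleton _
  have := (H 1 (X 0) _ le_rfl (X_ne_zero _) (by simp) inj fun _ => hf).2
  rw [aeval_X] at this
  obtain ⟨c, hc⟩ := key (D_of this.1)
  refine hc ?_
  have := (H 1 (X 0 * (X 0 + C c)) _ le_rfl (mul_ne_zero (X_ne_zero _) fun e => by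
    simpa using congrArg (eval fun _ => 1 - c) e) (by simp) inj fun _ => hf).2.2
  rw [map_mul, map_add, aeval_X, aeval_C] at this
  exact this

end Pool.Agent.Results.MP_4d07cf_an.No
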